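import Pool.Agent.J4H50.YO.Stm

set_option autoImplicit false

/-! # Project YO, job CN: the cone -/

namespace Pool.Agent.J4H74.YO

open Pool.Agent.J4H50.YO Pool.Agent.W574.SM
open MvPowerSeries

theorem DR.smul {σ : Type} {s : ℂ} {F : MvPowerSeries σ ℂ} {α : ℕ → MvPowerSeries σ ℂ →ₗ[ℂ] ℂ}
    (h : DR s F α) (c : ℂ) : DR s F (fun k => c • α k) := by
  refine ⟨fun k => ?_, fun k q => ?_, fun k i q => ?_⟩
  · obtain ⟨N, hN⟩ := h.cts k
    exact ⟨N, fun q hq => by rw [LinearMap.smul_apply, hN q hq, smul_zero]⟩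
  · rw [LinearMap.smul_apply, LinearMap.smul_apply, h.sft]
  · rw [LinearMap.smul_apply, LinearMap.smul_apply, smul_eq_mul, smul_eq_mul]
    linear_combination c * h.clo k i q

theorem t_CN (hLM : S_LM) (hUN : S_UN) (hPU : S_PU) : S_CN := by
  intro τ _ _ f Ψ J U g S s d k hd hk hS hs hi hΨ hJ hU hdet hsub hg hNV
  obtain ⟨V, hV, hV0⟩ := hLM g S s d k (Fintype.card τ + 1) hd hk (by omega) hS hs hi hg hNV
  rw [Nat.add_sub_cancel] at hV0
  obtain ⟨α, hα, hα0⟩ := hUN _ U s V hV hU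
  obtain ⟨β, hβ, hβ0⟩ := hPU f _ Ψ s α hΨ hsub hα
  have hΨs : HasSubst Ψ := hasSubst_of_constantCoeff_zero hΨ
  have key : ∀ q, β 0 q = constantCoeff J * constantCoeff q := by
    intro q
    rw [hβ0, hdet, mul_assoc]
    rw [hα0 _ (fun w hw => by
      rw [show w * (X none ^ Fintype.card τ * (J * subst Ψ q)) =
        X none ^ Fintype.card τ * (w * (J * subst Ψ q)) by ring, hV0, map_mul, hw, zero_mul])]
    rw [hV0, map_mul, constantCoeff_subst' hΨs hΨ]
  have hJ0 : constantCoeff J ≠ 0 := (hJ.map (constantCoeff (σ := Option τ) (R := ℂ))).ne_zero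
  refine ⟨_, DR.smul hβ (constantCoeff J)⁻¹, fun q => ?_⟩
  simp only [LinearMap.smul_apply, smul_eq_mul]
  rw [key, ← mul_assoc, inv_mul_cancel₀ hJ0, one_mul]

end Pool.Agent.J4H74.YO
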