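import Pool.Agent.J4H50.YO.Stm

set_option autoImplicit false

/-! # Project YO, jobs RG, SZ: poles of the functions `coneW` and `WW (swZ w D)` -/

namespace Pool.Agent.J4H74.YO

open Pool.Agent.J4H50.YO Pool.Agent.W574.SM Pool.Agent.N103.V Pool.Agent.J4H50.TT


/-- the inverse of a linear polynomial -/
theorem lin_inv (n d : ℕ) {s : ℂ} (h : (n : ℂ) + d * s ≠ 0) :
    ((n : RatFunc ℂ) + (d : RatFunc ℂ) * RatFunc.X)⁻¹ ∈ Reg s := by
  have e1 : (n : RatFunc ℂ) + (d : RatFunc ℂ) * RatFunc.X =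
      algebraMap (Polynomial ℂ) (RatFunc ℂ)
        ((n : Polynomial ℂ) + (d : Polynomial ℂ) * Polynomial.X) := by
    rw [map_add, map_mul, map_natCast, map_natCast, RatFunc.algebraMap_X]
  rw [e1]
  refine inv_mem ?_
  simpa using h

theorem natinv_mem (s : ℂ) (k : ℕ) : (1 / (k : RatFunc ℂ)) ∈ Reg s := by
  have e1 : (1 / (k : RatFunc ℂ)) = RatFunc.C ((k : ℂ)⁻¹) := by
    rw [map_inv₀, map_natCast, one_div]
  rw [e1]
  exact Reg_C s _

theorem t_RG : S_RG := by
  intro ι _ n d A k Z e s hn hd hk he hpole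
  by_contra hcon
  push Not at hcon
  obtain ⟨h0, h1⟩ := hcon
  apply hpole
  have hlin := lin_inv n d h0
  have hint : ∀ a : ℤ, (a : RatFunc ℂ) ∈ Reg s := fun a => intCast_mem (Reg s) a
  have hnat : ∀ a : ℕ, (a : RatFunc ℂ) ∈ Reg s := fun a => natCast_mem (Reg s) a
  unfold coneW
  refine (Reg s).add_mem ?_ (Subring.sum_mem _ fun i _ => ?_)
  · rw [div_eq_mul_inv]
    refine (Reg s).mul_mem ((Reg s).sub_mem ?_ ?_) hlin
    · split_ifs
      · exact hint A
      · exact (Reg s).zero_mem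
    · split_ifs
      · exact hnat d
      · exact (Reg s).zero_mem
  · have h2 : ∀ c, 1 ≤ c → sb (((d + k i : ℕ) : ℂ) / k i) ((n : ℂ) / k i) (WW (Z i) c) ∈ Reg s :=
      fun c hc => sb_mem _ (h1 i c hc)
    unfold ptW
    refine (Reg s).sub_mem ?_ ((Reg s).mul_mem (natinv_mem s (k i))
      (Subring.sum_mem _ fun a _ => Subring.sum_mem _ fun b _ => h2 _ ?_))
    · split_ifs
      · rw [div_eq_mul_inv]
        exact (Reg s).mul_mem (h2 e he) hlin
      · exact (Reg s).zero_mem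
    · unfold ordQ
      exact Nat.one_le_iff_ne_zero.2 (Nat.lcm_ne_zero (Rat.den_ne_zero _) (Rat.den_ne_zero _))

theorem alg_id {K : Type*} [Field K] (x c W D : K) (hx : x ≠ 0) (hx1 : x + 1 ≠ 0)
    (hL : W + D * x ≠ 0) :
    ((x + 1) * ((c + (W - c) / (x + 1)) / (W + D * x)) - 1) / x = (c - D) * (W + D * x)⁻¹ := by
  have h1 : (x + 1) * (c + (W - c) / (x + 1)) = x * c + W := by
    rw [mul_add, mul_div_cancel₀ _ hx1]
    ring
  rw [← mul_div_assoc, h1, div_sub_one hL, div_div,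
    show x * c + W - (W + D * x) = x * (c - D) by ring, mul_comm (W + D * x) x,
    mul_div_mul_left _ _ hx, div_eq_mul_inv]

/-- the linear polynomial is not zero -/
theorem lin_ne (n d : ℕ) {s : ℂ} (h : (n : ℂ) + d * s ≠ 0) :
    (n : RatFunc ℂ) + (d : RatFunc ℂ) * RatFunc.X ≠ 0 := by
  intro h1
  have e1 : (n : RatFunc ℂ) + (d : RatFunc ℂ) * RatFunc.X =
      algebraMap (Polynomial ℂ) (RatFunc ℂ)
        ((n : Polynomial ℂ) + (d : Polynomial ℂ) * Polynomial.X) := by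
    rw [map_add, map_mul, map_natCast, map_natCast, RatFunc.algebraMap_X]
  rw [e1, ← map_zero (algebraMap (Polynomial ℂ) (RatFunc ℂ))] at h1
  have h2 := congrArg (Polynomial.eval s) (RatFunc.algebraMap_injective ℂ h1)
  apply h
  simpa using h2

theorem t_SZ : S_SZ := by
  intro σ _ _ G0 w D e s hw hD _ _ _ he hpole
  by_contra hcon
  have hD0 : (D : ℂ) ≠ 0 := Nat.cast_ne_zero.2 hD.ne'
  have h0 : ((∑ i, w i : ℕ) : ℂ) + D * s ≠ 0 := by
    intro h
    apply hcon
    rw [eq_neg_iff_add_eq_zero, add_comm, div_add' _ _ _ hD0, div_eq_zero_iff]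
    left
    rw [mul_comm s]
    exact h
  have hlin := lin_inv (∑ i, w i) D h0
  have hL := lin_ne (∑ i, w i) D h0
  apply hpole
  unfold WW
  split_ifs with h1
  · have hX : (RatFunc.X : RatFunc ℂ) ≠ 0 := RatFunc.X_ne_zero
    have hX1 : (RatFunc.X + 1 : RatFunc ℂ) ≠ 0 := by
      have : (RatFunc.X + 1 : RatFunc ℂ) =
          algebraMap (Polynomial ℂ) (RatFunc ℂ) (Polynomial.X + Polynomial.C 1) := by
        rw [map_add, RatFunc.algebraMap_X, RatFunc.algebraMap_C, map_one]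
      rw [this]
      exact RatFunc.algebraMap_ne_zero (Polynomial.X_add_C_ne_zero 1)
    have e2 : ((RatFunc.X + 1) * swZ w D 1 - 1) / RatFunc.X =
        (RatFunc.C ((AE w D 1 : ℚ) : ℂ) - (D : RatFunc ℂ)) *
          (((∑ i, w i : ℕ) : RatFunc ℂ) + (D : RatFunc ℂ) * RatFunc.X)⁻¹ := by
      unfold swZ
      rw [if_pos rfl]
      exact alg_id _ _ _ _ hX hX1 hL
    rw [e2]
    exact (Reg s).mul_mem ((Reg s).sub_mem (Reg_C s _) (natCast_mem (Reg s) D)) hlin
  · unfold swZ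
    rw [if_neg h1, div_eq_mul_inv]
    exact (Reg s).mul_mem (Reg_C s _) hlin

end Pool.Agent.J4H74.YO
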